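import Mathlib
import Pool.Agent.R333.SubR

/-!
# Linear forms with real algebraic coefficients at points with large parts composed of given primes
(helper30)
-/

set_option autoImplicit false

namespace Pool.Agent.W5h30.MU

open Finset Filter Topology

/-- pigeonhole principle -/
lemma freq_pigeon {α : Type} [Finite α] (P : ℕ → Prop) (c : ℕ → α) (h : ∃ᶠ m in atTop, P m) :
    ∃ a, ∃ᶠ m in atTop, P m ∧ c m = a := by
  by_contra hcon
  push Not at hcon
  have h2 := Filter.eventually_all.2 hcon
  obtain ⟨m, hm1, hm2⟩ := (h.and_eventually h2).exists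
  exact hm2 (c m) hm1 rfl

/-- the size of an integer -/
noncomputable def sz (k : ℤ) : ℝ := max 1 |(k : ℝ)|

lemma one_le_sz (k : ℤ) : 1 ≤ sz k := le_max_left _ _

lemma sz_pos (k : ℤ) : 0 < sz k := lt_of_lt_of_le one_pos (one_le_sz k)

lemma abs_le_sz (k : ℤ) : |(k : ℝ)| ≤ sz k := le_max_right _ _

lemma sz_prod_le {n : ℕ} (f : Fin (n + 1) → ℤ) (i : Fin (n + 1)) :
    ∏ j : Fin n, sz (f (i.succAbove j)) ≤ ∏ j, sz (f j) := by
  rw [Fin.prod_univ_succAbove _ i]
  have h : 0 ≤ ∏ j : Fin n, sz (f (i.succAbove j)) := prod_nonneg fun _ _ => (sz_pos _).le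
  nlinarith [one_le_sz (f i)]

/-- the lower bound -/
def LB (b A : ℕ) (δ : ℝ) {n : ℕ} (β : Fin (n + 1) → ℝ) (m : ℕ) : Prop :=
  ∀ (k : Fin (n + 1) → ℤ) (r : Fin (n + 1) → ℕ), (∀ j, r j ∣ b ^ (A * m)) →
    (∀ j, |(k j : ℝ)| ≤ (b : ℝ) ^ (A * m)) → ∑ j, β j * ((k j : ℝ) * r j) ≠ 0 →
    (b : ℝ) ^ (-(δ * m)) / ∏ j : Fin n, sz (k j.castSucc) ≤ |∑ j, β j * ((k j : ℝ) * r j)|

lemma LB_drop {b A : ℕ} {δ : ℝ} {n : ℕ} {β : Fin (n + 2) → ℝ} {m : ℕ} (hb : 2 ≤ b)
    (h : LB b A δ (fun j : Fin (n + 1) => β j.castSucc) m)
    (k : Fin (n + 2) → ℤ) (r : Fin (n + 2) → ℕ) (hr : ∀ j, r j ∣ b ^ (A * m))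
    (hk : ∀ j, |(k j : ℝ)| ≤ (b : ℝ) ^ (A * m)) (hne : ∑ j, β j * ((k j : ℝ) * r j) ≠ 0)
    (hlast : β (Fin.last _) * ((k (Fin.last _) : ℝ) * r (Fin.last _)) = 0) :
    (b : ℝ) ^ (-(δ * m)) / ∏ j : Fin (n + 1), sz (k j.castSucc) ≤ |∑ j, β j * ((k j : ℝ) * r j)| := by
  have hs : ∑ j, β j * ((k j : ℝ) * r j) = ∑ j : Fin (n + 1), β j.castSucc * ((k j.castSucc : ℝ) * r j.castSucc) := by
    rw [Fin.sum_univ_castSucc, hlast, add_zero]
  rw [hs] at hne ⊢
  have h1 := h (fun j => k j.castSucc) (fun j => r j.castSucc) (fun j => hr _) (fun j => hk _) hne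
  refine le_trans ?_ h1
  have hb0 : (0 : ℝ) < b := by exact_mod_cast (by omega : 0 < b)
  have h2 : ∏ j : Fin n, sz (k j.castSucc.castSucc) ≤ ∏ j : Fin (n + 1), sz (k j.castSucc) := by
    have := sz_prod_le (fun j : Fin (n + 1) => k j.castSucc) (Fin.last n)
    simp only [Fin.succAbove_last] at this
    exact this
  have h3 : 0 < ∏ j : Fin n, sz (k j.castSucc.castSucc) := prod_pos fun _ _ => sz_pos _
  exact div_le_div_of_nonneg_left (by positivity) h3 h2

/-- **lower bounds for linear forms** -/
theorem forms (b : ℕ) (hb : 2 ≤ b) (A : ℕ) (δ : ℝ) (hδ : 0 < δ) : ∀ n : ℕ, ∀ β : Fin (n + 1) → ℝ,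
    (∀ j, IsAlgebraic ℚ (β j)) → ∀ᶠ m : ℕ in atTop, LB b A δ β m := by
  have hb0 : (0 : ℝ) < b := by exact_mod_cast (by omega : 0 < b)
  have hb1 : (1 : ℝ) < b := by exact_mod_cast (by omega : 1 < b)
  have hlb : 0 < Real.log b := Real.log_pos hb1
  intro n
  induction n with
  | zero =>
    intro β _
    by_cases hβ : β 0 = 0
    · refine Eventually.of_forall fun m k r _ _ hne => ?_
      exfalso
      apply hne
      simp [hβ]
    · have hpos : 0 < |β 0| := abs_pos.2 hβ
      have h1 : Tendsto (fun m : ℕ => (b : ℝ) ^ (-(δ * m))) atTop (𝓝 0) := by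
        have h2 : Tendsto (fun m : ℕ => δ * (m : ℝ)) atTop atTop :=
          Tendsto.const_mul_atTop hδ tendsto_natCast_atTop_atTop
        have h3 := (tendsto_rpow_atBot_of_base_gt_one (b : ℝ) hb1).comp (tendsto_neg_atTop_atBot.comp h2)
        exact h3
      filter_upwards [h1.eventually_le_const hpos] with m hm k r hr hk hne
      rw [Fin.sum_univ_one] at hne ⊢
      have hk0 : k 0 ≠ 0 := by
        rintro h0
        apply hne
        rw [h0]
        simp
      have hr0 : r 0 ≠ 0 := by
        rintro h0
        apply hne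
        rw [h0]
        simp
      have hk1 : (1 : ℝ) ≤ |(k 0 : ℝ)| := by exact_mod_cast Int.one_le_abs hk0
      have hr1 : (1 : ℝ) ≤ (r 0 : ℝ) := by exact_mod_cast Nat.pos_of_ne_zero hr0
      simp only [univ_eq_empty, prod_empty, div_one]
      refine hm.trans ?_
      rw [abs_mul, abs_mul, Nat.abs_cast]
      nlinarith [mul_le_mul hk1 hr1 zero_le_one (abs_nonneg _)]
  | succ n ih =>
    intro β halg
    have hdropev := ih (fun j : Fin (n + 1) => β j.castSucc) (fun j => halg _)
    by_cases hlast : β (Fin.last _) = 0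
    · filter_upwards [hdropev] with m hm k r hr hk hne
      exact LB_drop hb hm k r hr hk hne (by rw [hlast, zero_mul])
    · by_contra hcon
      rw [Filter.not_eventually] at hcon
      -- witnesses
      have hwit : ∀ m : ℕ, ∃ (k : Fin (n + 2) → ℤ) (r : Fin (n + 2) → ℕ), ¬ LB b A δ β m →
          (∀ j, r j ∣ b ^ (A * m)) ∧ (∀ j, |(k j : ℝ)| ≤ (b : ℝ) ^ (A * m)) ∧
          ∑ j, β j * ((k j : ℝ) * r j) ≠ 0 ∧
          |∑ j, β j * ((k j : ℝ) * r j)| < (b : ℝ) ^ (-(δ * m)) / ∏ j : Fin (n + 1), sz (k j.castSucc) := by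
        intro m
        by_cases hm : LB b A δ β m
        · exact ⟨0, 0, fun h => absurd hm h⟩
        · have hm' := hm
          unfold LB at hm'
          push Not at hm'
          obtain ⟨k, r, h1, h2, h3, h4⟩ := hm'
          exact ⟨k, r, fun _ => ⟨h1, h2, h3, h4⟩⟩
      choose k r hkr using hwit
      -- discretised exponents
      obtain ⟨γ, hγ⟩ : ∃ γ : ℝ, γ = δ / (4 * (n + 3)) := ⟨_, rfl⟩
      have hγ0 : 0 < γ := by rw [hγ]; positivity
      obtain ⟨M0, hM0⟩ : ∃ M0 : ℕ, M0 = ⌊(2 * A : ℝ) / γ⌋₊ := ⟨_, rfl⟩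
      set θ : ℕ → Fin (n + 2) → ℝ := fun m j => Real.log (sz (k m j) * r m j) / (m * Real.log b) with hθ
      set κ : ℕ → Fin (n + 2) → ℝ := fun m j => Real.log (sz (k m j)) / (m * Real.log b) with hκ
      have hfreq0 : ∃ᶠ m in atTop, ¬ LB b A δ β m ∧ 1 ≤ m := hcon.and_eventually (eventually_ge_atTop 1)
      obtain ⟨cell, hcell⟩ := freq_pigeon (fun m => ¬ LB b A δ β m ∧ 1 ≤ m)
        (fun m => ((fun j => Fin.ofNat (M0 + 1) ⌊θ m j / γ⌋₊, fun j => Fin.ofNat (M0 + 1) ⌊κ m j / γ⌋₊) :
          (Fin (n + 2) → Fin (M0 + 1)) × (Fin (n + 2) → Fin (M0 + 1)))) hfreq0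
      set P : ℕ → Prop := fun m => (¬ LB b A δ β m ∧ 1 ≤ m) ∧
        (((fun j => Fin.ofNat (M0 + 1) ⌊θ m j / γ⌋₊, fun j => Fin.ofNat (M0 + 1) ⌊κ m j / γ⌋₊) :
          (Fin (n + 2) → Fin (M0 + 1)) × (Fin (n + 2) → Fin (M0 + 1))) = cell) with hP
      have hcell' : ∃ᶠ m in atTop, P m := hcell
      -- facts about the exponents
      have hrpos : ∀ m, P m → ∀ j, 0 < r m j := by
        intro m hm j
        exact Nat.pos_of_dvd_of_pos ((hkr m hm.1.1).1 j) (pow_pos (by omega) _)
      have hml : ∀ m, P m → 0 < (m : ℝ) * Real.log b := by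
        intro m hm
        have : (1 : ℝ) ≤ m := by exact_mod_cast hm.1.2
        positivity
      have hszle : ∀ m, P m → ∀ j, sz (k m j) ≤ (b : ℝ) ^ (A * m) := by
        intro m hm j
        exact max_le (one_le_pow₀ hb1.le) ((hkr m hm.1.1).2.1 j)
      have hrle : ∀ m, P m → ∀ j, (r m j : ℝ) ≤ (b : ℝ) ^ (A * m) := by
        intro m hm j
        exact_mod_cast Nat.le_of_dvd (pow_pos (by omega) _) ((hkr m hm.1.1).1 j)
      have hκ0 : ∀ m, P m → ∀ j, 0 ≤ κ m j := by
        intro m hm j
        exact div_nonneg (Real.log_nonneg (one_le_sz _)) (hml m hm).le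
      have hκθ : ∀ m, P m → ∀ j, κ m j ≤ θ m j := by
        intro m hm j
        refine div_le_div_of_nonneg_right ?_ (hml m hm).le
        refine Real.log_le_log (sz_pos _) ?_
        have h1 : (1 : ℝ) ≤ r m j := by exact_mod_cast hrpos m hm j
        have h2 := sz_pos (k m j)
        nlinarith
      have hθle : ∀ m, P m → ∀ j, θ m j ≤ 2 * A := by
        intro m hm j
        rw [hθ]
        simp only
        rw [div_le_iff₀ (hml m hm)]
        have h1 : (0 : ℝ) < r m j := by exact_mod_cast hrpos m hm j
        have h2 : sz (k m j) * r m j ≤ (b : ℝ) ^ (A * m) * (b : ℝ) ^ (A * m) :=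
          mul_le_mul (hszle m hm j) (hrle m hm j) h1.le (by positivity)
        have h3 := Real.log_le_log (mul_pos (sz_pos _) h1) h2
        have h4 : Real.log ((b : ℝ) ^ (A * m) * (b : ℝ) ^ (A * m)) = 2 * A * (m * Real.log b) := by
          rw [Real.log_mul (by positivity) (by positivity), Real.log_pow]
          push_cast
          ring
        linarith
      have hval : ∀ m, P m → ∀ j, ((cell.1 j : ℕ)) = ⌊θ m j / γ⌋₊ ∧ ((cell.2 j : ℕ)) = ⌊κ m j / γ⌋₊ := by
        intro m hm j
        have h1 := hm.2
        have h2 : ⌊θ m j / γ⌋₊ < M0 + 1 := by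
          have : ⌊θ m j / γ⌋₊ ≤ M0 := by
            rw [hM0]
            exact Nat.floor_le_floor (div_le_div_of_nonneg_right (hθle m hm j) hγ0.le)
          omega
        have h3 : ⌊κ m j / γ⌋₊ < M0 + 1 := by
          have : ⌊κ m j / γ⌋₊ ≤ M0 := by
            rw [hM0]
            exact Nat.floor_le_floor (div_le_div_of_nonneg_right ((hκθ m hm j).trans (hθle m hm j)) hγ0.le)
          omega
        constructor
        · rw [← h1]
          simp only [Fin.ofNat]
          exact Nat.mod_eq_of_lt h2
        · rw [← h1]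
          simp only [Fin.ofNat]
          exact Nat.mod_eq_of_lt h3
      have hup : ∀ m, P m → ∀ j, θ m j ≤ ((cell.1 j : ℕ) + 1 : ℝ) * γ := by
        intro m hm j
        rw [(hval m hm j).1]
        have := Nat.lt_floor_add_one (θ m j / γ)
        rw [div_lt_iff₀ hγ0] at this
        exact this.le
      have hup2 : ∀ m, P m → ∀ j, ((cell.1 j : ℕ) : ℝ) * γ ≤ θ m j := by
        intro m hm j
        rw [(hval m hm j).1]
        have := Nat.floor_le (div_nonneg ((hκ0 m hm j).trans (hκθ m hm j)) hγ0.le)
        rwa [le_div_iff₀ hγ0] at this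
      have hlo : ∀ m, P m → ∀ j, ((cell.2 j : ℕ) : ℝ) * γ ≤ κ m j := by
        intro m hm j
        rw [(hval m hm j).2]
        have := Nat.floor_le (div_nonneg (hκ0 m hm j) hγ0.le)
        rwa [le_div_iff₀ hγ0] at this
      have hlo2 : ∀ m, P m → ∀ j, κ m j ≤ ((cell.2 j : ℕ) + 1 : ℝ) * γ := by
        intro m hm j
        rw [(hval m hm j).2]
        have := Nat.lt_floor_add_one (κ m j / γ)
        rw [div_lt_iff₀ hγ0] at this
        exact this.le
      -- the exponents for the subspace theorem
      set a : Fin (n + 2) → ℝ := Fin.snoc (fun j : Fin (n + 1) => ((cell.1 j.castSucc : ℕ) + 1 : ℝ) * γ)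
        (-(δ + ∑ j : Fin (n + 1), ((cell.2 j.castSucc : ℕ) : ℝ) * γ)) with ha
      set M : Matrix (Fin (n + 2)) (Fin (n + 2)) ℝ := fun l j =>
        if l = Fin.last _ then β j else if l = j then 1 else 0 with hM
      obtain ⟨y, hy0, hyfreq⟩ := Pool.Agent.R333.SubR.sub_real (n := n + 2) (by omega) b hb M
        (fun i j => by
          rw [hM]
          simp only
          split_ifs
          · exact halg j
          · exact isAlgebraic_one
          · exact isAlgebraic_zero)
        (fun i j hij => by
          rw [hM]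
          simp only
          rw [if_neg (by
            rintro rfl
            exact absurd hij (not_lt.2 (Fin.le_last j))), if_neg hij.ne])
        (fun i => by
          rw [hM]
          simp only
          by_cases hi : i = Fin.last _
          · rw [if_pos hi, hi]; exact hlast
          · simp [hi])
        P hcell' (fun m j => k m j * (r m j : ℤ)) (fun m hm h0 => by
          apply (hkr m hm.1.1).2.2.1
          refine sum_eq_zero fun j _ => ?_
          have h1 := congrFun h0 j
          have h2 : (k m j : ℝ) * r m j = 0 := by exact_mod_cast h1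
          rw [h2, mul_zero])
        r A (fun m l hm => (hkr m hm.1.1).1 l) (fun m l hm => Dvd.intro_left _ rfl) a 1 one_pos
        (fun m l hm => by
          have hmlm := hml m hm
          by_cases hl : l = Fin.last _
          · subst hl
            have h1 : ∑ j, M (Fin.last _) j * ((k m j * (r m j : ℤ) : ℤ) : ℝ) =
                ∑ j, β j * ((k m j : ℝ) * r m j) := by
              refine sum_congr rfl fun j _ => ?_
              rw [hM]
              simp only [↓reduceIte]
              push_cast
              ring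
            rw [h1, one_mul, ha, Fin.snoc_last]
            refine (hkr m hm.1.1).2.2.2.le.trans ?_
            rw [div_le_iff₀ (prod_pos fun _ _ => sz_pos _)]
            have h2 : (b : ℝ) ^ ((∑ j : Fin (n + 1), ((cell.2 j.castSucc : ℕ) : ℝ) * γ) * m) ≤
                ∏ j : Fin (n + 1), sz (k m j.castSucc) := by
              rw [sum_mul, Real.rpow_sum_of_pos hb0]
              refine prod_le_prod (fun _ _ => by positivity) fun j _ => ?_
              have h3 := hlo m hm j.castSucc
              rw [hκ] at h3
              simp only at h3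
              rw [le_div_iff₀ hmlm] at h3
              rw [← Real.exp_log hb0, ← Real.exp_mul, ← Real.le_log_iff_exp_le (sz_pos _)]
              refine le_trans (le_of_eq ?_) h3
              ring
            calc (b : ℝ) ^ (-(δ * m)) = (b : ℝ) ^ (-(δ + ∑ j : Fin (n + 1), ((cell.2 j.castSucc : ℕ) : ℝ) * γ) * m) *
                (b : ℝ) ^ ((∑ j : Fin (n + 1), ((cell.2 j.castSucc : ℕ) : ℝ) * γ) * m) := by
                  rw [← Real.rpow_add hb0]
                  congr 1
                  ring
              _ ≤ _ := by gcongr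
          · obtain ⟨l', rfl⟩ : ∃ l', l = Fin.castSucc l' := ⟨l.castPred hl, (Fin.castSucc_castPred l hl).symm⟩
            have h1 : ∑ j, M l'.castSucc j * ((k m j * (r m j : ℤ) : ℤ) : ℝ) =
                (k m l'.castSucc : ℝ) * r m l'.castSucc := by
              rw [sum_eq_single l'.castSucc]
              · rw [hM]
                simp only [if_neg hl, ↓reduceIte]
                push_cast
                ring
              · intro j _ hj
                rw [hM]
                simp only [if_neg hl, if_neg hj.symm, zero_mul]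
              · intro h
                exact absurd (mem_univ _) h
            rw [h1, one_mul, ha, Fin.snoc_castSucc, abs_mul, Nat.abs_cast]
            have hr1 : (0 : ℝ) < r m l'.castSucc := by exact_mod_cast hrpos m hm _
            refine (mul_le_mul_of_nonneg_right (abs_le_sz _) hr1.le).trans ?_
            have h3 := hup m hm l'.castSucc
            rw [hθ] at h3
            simp only at h3
            rw [div_le_iff₀ hmlm] at h3
            rw [← Real.exp_log hb0, ← Real.exp_mul, ← Real.log_le_iff_le_exp (mul_pos (sz_pos _) hr1)]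
            refine h3.trans (le_of_eq ?_)
            ring)
        (δ / 4) (by positivity) (fun m hm => by
          have hmlm := hml m hm
          have h1 : ∑ l, a l = ∑ j : Fin (n + 1), ((cell.1 j.castSucc : ℕ) + 1 : ℝ) * γ +
              -(δ + ∑ j : Fin (n + 1), ((cell.2 j.castSucc : ℕ) : ℝ) * γ) := by
            rw [Fin.sum_univ_castSucc, ha]
            simp only [Fin.snoc_castSucc, Fin.snoc_last]
          have h2 : ∀ j : Fin (n + 2), Real.log (r m j) = (θ m j - κ m j) * (m * Real.log b) := by
            intro j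
            have hr1 : (0 : ℝ) < r m j := by exact_mod_cast hrpos m hm j
            rw [hθ, hκ]
            simp only
            rw [Real.log_mul (sz_pos _).ne' hr1.ne', ← sub_div, add_sub_cancel_left,
              div_mul_cancel₀ _ hmlm.ne']
          have h3 : ∑ l, a l + δ / 4 ≤ ∑ l, (θ m l - κ m l) := by
            rw [h1, Fin.sum_univ_castSucc (f := fun l => θ m l - κ m l)]
            have h4 : 0 ≤ θ m (Fin.last _) - κ m (Fin.last _) := by linarith [hκθ m hm (Fin.last _)]
            have h5 : ∑ j : Fin (n + 1), (((cell.1 j.castSucc : ℕ) + 1 : ℝ) * γ -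
                ((cell.2 j.castSucc : ℕ) : ℝ) * γ) ≤
                ∑ j : Fin (n + 1), ((θ m j.castSucc - κ m j.castSucc) + 2 * γ) := by
              refine sum_le_sum fun j _ => ?_
              have h6 := hup2 m hm j.castSucc
              have h7 := hlo2 m hm j.castSucc
              linarith
            rw [sum_sub_distrib, sum_add_distrib, sum_const, card_univ, Fintype.card_fin, nsmul_eq_mul] at h5
            have h6 : (((n + 1 : ℕ) : ℝ)) * (2 * γ) ≤ δ / 2 := by
              rw [hγ]
              push_cast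
              rw [mul_div_assoc', mul_div_assoc', div_le_div_iff₀ (by positivity) (by norm_num)]
              nlinarith [hδ, (Nat.cast_nonneg n : (0 : ℝ) ≤ n)]
            linarith
          calc (∑ l, a l + δ / 4) * m * Real.log b = (∑ l, a l + δ / 4) * (m * Real.log b) := by ring
            _ ≤ (∑ l, (θ m l - κ m l)) * (m * Real.log b) := mul_le_mul_of_nonneg_right h3 hmlm.le
            _ = ∑ l, Real.log (r m l) := by
                rw [sum_mul]
                exact sum_congr rfl fun l _ => (h2 l).symm)
      -- the relation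
      by_cases hex : ∃ i : Fin (n + 1), y i.castSucc ≠ 0
      · obtain ⟨i', hi'⟩ := hex
        obtain ⟨i, hi⟩ : ∃ i : Fin (n + 2), i = i'.castSucc := ⟨_, rfl⟩
        have hyi : (y i : ℝ) ≠ 0 := by rw [hi]; exact_mod_cast hi'
        have hev := ih (fun j => β (i.succAbove j) - β i * (y (i.succAbove j) / y i)) (fun j => by
          refine (halg _).sub ((halg i).mul ?_)
          have h1 : ((y (i.succAbove j) : ℝ) / (y i : ℝ)) =
              (algebraMap ℚ ℝ) ((y (i.succAbove j) : ℚ) / (y i : ℚ)) := by
            push_cast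
            simp
          rw [h1]
          exact isAlgebraic_algebraMap _)
        obtain ⟨m, ⟨hm1, hm2⟩, hm3⟩ := (hyfreq.and_eventually hev).exists
        obtain ⟨w1, w2, w3, w4⟩ := hkr m hm1.1.1
        have hrel : (y i : ℝ) * ((k m i : ℝ) * r m i) =
            -∑ j : Fin (n + 1), (y (i.succAbove j) : ℝ) * ((k m (i.succAbove j) : ℝ) * r m (i.succAbove j)) := by
          have h1 : ∑ l, (y l : ℝ) * ((k m l : ℝ) * r m l) = 0 := by exact_mod_cast hm2
          rw [Fin.sum_univ_succAbove _ i] at h1
          linarith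
        have hΛ : ∑ j, β j * ((k m j : ℝ) * r m j) = ∑ j : Fin (n + 1),
            (β (i.succAbove j) - β i * (y (i.succAbove j) / y i)) *
              ((k m (i.succAbove j) : ℝ) * r m (i.succAbove j)) := by
          rw [Fin.sum_univ_succAbove _ i]
          have h2 : (k m i : ℝ) * r m i = -(∑ j : Fin (n + 1), (y (i.succAbove j) : ℝ) *
              ((k m (i.succAbove j) : ℝ) * r m (i.succAbove j))) / y i := by
            rw [eq_div_iff hyi, ← hrel]
            ring
          rw [h2]
          simp only [sub_mul, sum_sub_distrib]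
          have h3 : β i * (-(∑ j : Fin (n + 1), (y (i.succAbove j) : ℝ) *
              ((k m (i.succAbove j) : ℝ) * r m (i.succAbove j))) / y i) =
              -∑ j : Fin (n + 1), β i * (y (i.succAbove j) / y i) *
              ((k m (i.succAbove j) : ℝ) * r m (i.succAbove j)) := by
            rw [neg_div, mul_neg, sum_div, mul_sum]
            congr 1
            refine sum_congr rfl fun j _ => ?_
            ring
          rw [h3]
          ring
        rw [hΛ] at w3 w4
        have h4 := hm3 (fun j => k m (i.succAbove j)) (fun j => r m (i.succAbove j)) (fun j => w1 _)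
          (fun j => w2 _) w3
        have h5 : ∏ j : Fin n, sz (k m (i.succAbove j.castSucc)) ≤
            ∏ j : Fin (n + 1), sz (k m j.castSucc) := by
          have h6 := sz_prod_le (fun j : Fin (n + 1) => k m j.castSucc) i'
          refine le_trans (le_of_eq ?_) h6
          refine prod_congr rfl fun j _ => ?_
          rw [hi, Fin.castSucc_succAbove_castSucc]
        have h6 : 0 < ∏ j : Fin n, sz (k m (i.succAbove j.castSucc)) := prod_pos fun _ _ => sz_pos _
        have h7 := div_le_div_of_nonneg_left (a := (b : ℝ) ^ (-(δ * m))) (by positivity) h6 h5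
        linarith
      · push Not at hex
        have hyl : y (Fin.last _) ≠ 0 := by
          intro h0
          apply hy0
          funext j
          by_cases hj : j = Fin.last _
          · rw [hj]; exact h0
          · obtain ⟨j', rfl⟩ : ∃ j', j = Fin.castSucc j' := ⟨j.castPred hj, (Fin.castSucc_castPred j hj).symm⟩
            exact hex j'
        obtain ⟨m, ⟨hm1, hm2⟩, hm3⟩ := (hyfreq.and_eventually hdropev).exists
        obtain ⟨w1, w2, w3, w4⟩ := hkr m hm1.1.1
        have hx : (k m (Fin.last _) : ℝ) * r m (Fin.last _) = 0 := by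
          rw [Fin.sum_univ_castSucc] at hm2
          simp only [hex, zero_mul, sum_const_zero, zero_add] at hm2
          have h1 := (mul_eq_zero.1 hm2).resolve_left hyl
          exact_mod_cast h1
        have h4 := LB_drop hb hm3 (k m) (r m) w1 w2 w3 (by rw [hx, mul_zero])
        linarith

end Pool.Agent.W5h30.MU
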