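import Mathlib
import Pool.Agent.W5h30.SM.Main
import Pool.Agent.W5h30.MU.Forms

/-!
# The joint law of the digits of the multiples of algebraic numbers (helper30)
-/

set_option autoImplicit false
set_option linter.unusedVariables false

namespace Pool.Agent.W5h30.MU

open Finset Filter MeasureTheory Pool.Agent.Y933.KD Pool.Agent.W5h30.SM

/-- the uniform distribution on `0, ..., M - 1` -/
noncomputable def unif (M : ℕ) : Measure ℕ := (M : ENNReal)⁻¹ • ∑ m ∈ range M, Measure.dirac m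

lemma unif_prob {M : ℕ} (hM : 0 < M) : IsProbabilityMeasure (unif M) := by
  constructor
  unfold unif
  rw [Measure.smul_apply, Measure.coe_finsetSum, Finset.sum_apply]
  simp only [measure_univ, sum_const, card_range, nsmul_eq_mul, mul_one, smul_eq_mul]
  exact ENNReal.inv_mul_cancel (by exact_mod_cast hM.ne') (ENNReal.natCast_ne_top M)

lemma unif_int {E : Type} [NormedAddCommGroup E] [NormedSpace ℝ E] [CompleteSpace E] (M : ℕ)
    (f : ℕ → E) : ∫ m, f m ∂(unif M) = ((M : ℝ)⁻¹) • ∑ m ∈ range M, f m := by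
  unfold unif
  rw [integral_smul_measure, integral_finsetSum_measure]
  · simp only [integral_dirac]
    congr 1
    rw [ENNReal.toReal_inv, ENNReal.toReal_natCast]
  · intro i _
    exact integrable_dirac (by simp)

/-- a sum over separated points -/
lemma sep_sum {X : Type} (S : Finset X) (t : X → ℝ) {Δ : ℝ} (hΔ : 0 < Δ) (h1 : ∀ x ∈ S, Δ ≤ |t x|)
    (h2 : ∀ x ∈ S, ∀ y ∈ S, x ≠ y → Δ ≤ |t x - t y|) :
    ∑ x ∈ S, 1 / (t x) ^ 2 ≤ 16 / Δ ^ 2 := by
  classical
  set i : X → ℤ := fun x => ⌊t x / Δ⌋ with hi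
  have hinj : Set.InjOn i S := by
    intro x hx y hy hxy
    by_contra hne
    have h3 := h2 x hx y hy hne
    have h4 := Int.floor_le (t x / Δ)
    have h5 := Int.lt_floor_add_one (t x / Δ)
    have h6 := Int.floor_le (t y / Δ)
    have h7 := Int.lt_floor_add_one (t y / Δ)
    have hxy' : ⌊t x / Δ⌋ = ⌊t y / Δ⌋ := hxy
    rw [hxy'] at h4 h5
    rw [le_div_iff₀ hΔ] at h4 h6
    rw [div_lt_iff₀ hΔ] at h5 h7
    have h8 : |t x - t y| < Δ := by
      rw [abs_lt]
      constructor <;> nlinarith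
    linarith
  have hi0 : ∀ x ∈ S, i x ≠ 0 := by
    intro x hx h0
    have h3 := h1 x hx
    have h4 := Int.floor_le (t x / Δ)
    have h5 := Int.lt_floor_add_one (t x / Δ)
    have h0' : ⌊t x / Δ⌋ = 0 := h0
    rw [h0'] at h4 h5
    rw [le_div_iff₀ hΔ] at h4
    rw [div_lt_iff₀ hΔ] at h5
    push_cast at h4 h5
    rw [abs_of_nonneg (by linarith)] at h3
    linarith
  have hterm : ∀ x ∈ S, 1 / (t x) ^ 2 ≤ 4 / Δ ^ 2 * (((i x).natAbs : ℝ) ^ 2)⁻¹ := by
    intro x hx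
    have h3 := h1 x hx
    have h4 := Int.floor_le (t x / Δ)
    have h5 := Int.lt_floor_add_one (t x / Δ)
    have hx0 := hi0 x hx
    have habs : ((i x).natAbs : ℝ) = |(i x : ℝ)| := by rw [Nat.cast_natAbs]; push_cast; rfl
    have hle : |(i x : ℝ)| * Δ ≤ 2 * |t x| := by
      have h4' : ((i x : ℤ) : ℝ) * Δ ≤ t x := by rwa [le_div_iff₀ hΔ] at h4
      have h5' : t x < ((i x : ℤ) + 1 : ℝ) * Δ := by rwa [div_lt_iff₀ hΔ] at h5
      rcases lt_or_gt_of_ne hx0 with hneg | hpos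
      · have h6 : (i x : ℝ) ≤ -1 := by exact_mod_cast (by omega : i x ≤ -1)
        rw [abs_of_neg (by linarith)]
        have h7 : t x < 0 := by nlinarith
        rw [abs_of_neg h7] at h3 ⊢
        nlinarith
      · have h6 : (1 : ℝ) ≤ i x := by exact_mod_cast (by omega : 1 ≤ i x)
        rw [abs_of_pos (by linarith)]
        have h7 : 0 < t x := by nlinarith
        rw [abs_of_pos h7]
        nlinarith
    have hn0 : 0 < |(i x : ℝ)| := abs_pos.2 (by exact_mod_cast hx0)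
    have ht0 : 0 < |t x| := by linarith
    rw [habs, ← sq_abs (t x)]
    rw [div_mul_eq_mul_div, ← div_eq_mul_inv, div_div, div_le_div_iff₀ (by positivity) (by positivity)]
    have h6 : (|(i x : ℝ)| * Δ) ^ 2 ≤ (2 * |t x|) ^ 2 := pow_le_pow_left₀ (by positivity) hle 2
    nlinarith
  refine (sum_le_sum hterm).trans ?_
  rw [← mul_sum]
  have hsq : ∑ x ∈ S, (((i x).natAbs : ℝ) ^ 2)⁻¹ ≤ 4 := by
    have hsplit : ∑ x ∈ S, (((i x).natAbs : ℝ) ^ 2)⁻¹ =
        ∑ x ∈ S.filter (fun x => 0 < i x), (((i x).natAbs : ℝ) ^ 2)⁻¹ +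
        ∑ x ∈ S.filter (fun x => ¬ 0 < i x), (((i x).natAbs : ℝ) ^ 2)⁻¹ :=
      (sum_filter_add_sum_filter_not _ _ _).symm
    have key : ∀ T : Finset X, (∀ x ∈ T, x ∈ S) → Set.InjOn (fun x => (i x).natAbs) (T : Set X) →
        ∑ x ∈ T, (((i x).natAbs : ℝ) ^ 2)⁻¹ ≤ 2 := by
      intro T hT hTinj
      obtain ⟨n, hn⟩ : ∃ n : ℕ, ∀ x ∈ T, (i x).natAbs < n := by
        refine ⟨(T.sup fun x => (i x).natAbs) + 1, fun x hx => ?_⟩
        have := Finset.le_sup (f := fun x => (i x).natAbs) hx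
        omega
      have h3 : ∑ x ∈ T, (((i x).natAbs : ℝ) ^ 2)⁻¹ = ∑ j ∈ T.image (fun x => (i x).natAbs), ((j : ℝ) ^ 2)⁻¹ := by
        rw [sum_image fun x hx y hy hxy => hTinj hx hy hxy]
      rw [h3]
      have h4 := sum_Ioo_inv_sq_le (α := ℝ) 0 n
      refine le_trans (sum_le_sum_of_subset_of_nonneg ?_ fun _ _ _ => by positivity) (h4.trans ?_)
      · intro j hj
        rw [mem_image] at hj
        obtain ⟨x, hx, rfl⟩ := hj
        rw [mem_Ioo]
        exact ⟨Int.natAbs_pos.2 (hi0 x (hT x hx)), hn x hx⟩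
      · norm_num
    have h3 := key (S.filter (fun x => 0 < i x)) (fun x hx => (mem_filter.1 hx).1) (by
      intro x hx y hy hxy
      rw [mem_coe, mem_filter] at hx hy
      refine hinj hx.1 hy.1 ?_
      have e1 := hx.2
      have e2 := hy.2
      simp only at hxy
      omega)
    have h4 := key (S.filter (fun x => ¬ 0 < i x)) (fun x hx => (mem_filter.1 hx).1) (by
      intro x hx y hy hxy
      rw [mem_coe, mem_filter] at hx hy
      refine hinj hx.1 hy.1 ?_
      have e1 := hx.2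
      have e2 := hy.2
      simp only at hxy
      omega)
    rw [hsplit]
    linarith
  calc 4 / Δ ^ 2 * ∑ x ∈ S, (((i x).natAbs : ℝ) ^ 2)⁻¹ ≤ 4 / Δ ^ 2 * 4 := by gcongr
    _ = 16 / Δ ^ 2 := by ring

/-- geometric sums -/
lemma geo {M : ℕ} (hM : 0 < M) {ξ t : ℝ} (ht : t = ξ - round ξ) (ht0 : t ≠ 0) :
    ‖((M : ℝ)⁻¹) • ∑ m ∈ range M, e (m * ξ)‖ ^ 2 ≤ 1 / (4 * (M : ℝ) ^ 2) * (1 / t ^ 2) := by
  have hMR : (0 : ℝ) < M := by exact_mod_cast hM
  have h0 : 2 * |t| ≤ |Real.sin (Real.pi * ξ)| := by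
    rw [abs_sin_pi, ← ht]
    exact two_mul_le_sin (abs_nonneg _) (by rw [ht]; exact abs_sub_round ξ)
  have h1 := D_mul M ξ
  have h2 : |Real.sin (Real.pi * (M * ξ))| ≤ 1 := Real.abs_sin_le_one _
  have ht1 : 0 < |t| := abs_pos.2 ht0
  have h3 : ‖D M ξ‖ ≤ 1 / (2 * |t|) := by
    rw [le_div_iff₀ (by positivity)]
    calc ‖D M ξ‖ * (2 * |t|) ≤ ‖D M ξ‖ * |Real.sin (Real.pi * ξ)| := by gcongr
      _ ≤ 1 := by rw [h1]; exact h2
  have h4 : ∑ m ∈ range M, e (m * ξ) = D M ξ := rfl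
  rw [h4, norm_smul, Real.norm_eq_abs, abs_of_pos (by positivity), mul_pow]
  calc ((M : ℝ)⁻¹) ^ 2 * ‖D M ξ‖ ^ 2 ≤ ((M : ℝ)⁻¹) ^ 2 * (1 / (2 * |t|)) ^ 2 := by gcongr
    _ = 1 / (4 * (M : ℝ) ^ 2) * (1 / t ^ 2) := by
        rw [div_pow, mul_pow, sq_abs]
        field_simp
        norm_num

/-- **the joint law of the cells of multiples with well spaced frequencies** -/
theorem mult_law {n : ℕ} {M : ℕ} (hM : 0 < M) (K : Fin n → ℕ) (hK : ∀ j, 0 < K j) {J : ℕ} (hJ : 0 < J)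
    (ξ y : Fin n → ℝ) {Δ : ℝ} (hΔ : 0 < Δ)
    (hsp : ∀ k : Fin n → ℤ, k ≠ 0 → (∀ j, |k j| < 4 * (K j * (J : ℤ) ^ 2)) →
      ∀ p : ℤ, Δ ≤ |(∑ j, k j * ξ j) - p|)
    (E : Finset (Fin n → ℕ)) (hE : ∀ a ∈ E, ∀ j, a j < K j) :
    |((range M).filter (fun m : ℕ => (fun j => cell (K j) (m * ξ j + y j)) ∈ E)).card / (M : ℝ) -
      (E.card : ℝ) / ∏ j, (K j : ℝ)| ≤ n * (5 / J) + (4 * n + 1) * (2 / (M * Δ)) := by
  classical
  have hMR : (0 : ℝ) < M := by exact_mod_cast hM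
  have := unif_prob hM
  have h1 := smooth (unif M) K hK hJ (fun j m => (m : ℝ) * ξ j + y j) (fun j => measurable_from_top) E hE
  rw [Fintype.card_fin, unif_int, smul_eq_mul] at h1
  have h2 : (M : ℝ)⁻¹ * ∑ m ∈ range M, (if (fun j => cell (K j) ((m : ℝ) * ξ j + y j)) ∈ E then (1 : ℝ) else 0) =
      ((range M).filter (fun m : ℕ => (fun j => cell (K j) (m * ξ j + y j)) ∈ E)).card / (M : ℝ) := by
    rw [← sum_filter, sum_const, nsmul_eq_mul, mul_one, div_eq_inv_mul]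
  rw [h2] at h1
  refine h1.trans ?_
  have hD : D2 (unif M) (fun j (m : ℕ) => (m : ℝ) * ξ j + y j) K J ≤ 2 / (M * Δ) := by
    unfold D2
    rw [show 2 / (M * Δ) = √((2 / (M * Δ)) ^ 2) by rw [Real.sqrt_sq (by positivity)]]
    refine Real.sqrt_le_sqrt ?_
    set t : (Fin n → ℤ) → ℝ := fun k => (∑ j, k j * ξ j) - round (∑ j, k j * ξ j) with ht
    have hmem : ∀ k ∈ (SM.box (rad K J)).erase 0, k ≠ 0 ∧ ∀ j, |k j| < 2 * (K j * (J : ℤ) ^ 2) := by
      intro k hk
      rw [mem_erase] at hk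
      refine ⟨hk.1, fun j => ?_⟩
      have h3 := hk.2
      unfold SM.box rad at h3
      rw [Fintype.mem_piFinset] at h3
      have h4 := mem_Ioo.1 (h3 j)
      rw [abs_lt]
      push_cast at h4
      exact h4
    have hpos : ∀ j, (0 : ℤ) < K j * (J : ℤ) ^ 2 := fun j => by
      have h3 : (0 : ℤ) < K j := by exact_mod_cast hK j
      have h4 : (0 : ℤ) < J := by exact_mod_cast hJ
      positivity
    have ht1 : ∀ k ∈ (SM.box (rad K J)).erase 0, Δ ≤ |t k| := by
      intro k hk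
      obtain ⟨h3, h4⟩ := hmem k hk
      exact hsp k h3 (fun j => (h4 j).trans_le (by linarith [hpos j])) _
    have ht2 : ∀ k ∈ (SM.box (rad K J)).erase 0, ∀ k' ∈ (SM.box (rad K J)).erase 0, k ≠ k' →
        Δ ≤ |t k - t k'| := by
      intro k hk k' hk' hne
      obtain ⟨_, h4⟩ := hmem k hk
      obtain ⟨_, h6⟩ := hmem k' hk'
      have h7 := hsp (k - k') (sub_ne_zero.2 hne) (fun j => by
        have h8 := h4 j
        have h9 := h6 j
        rw [abs_lt] at h8 h9 ⊢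
        simp only [Pi.sub_apply]
        constructor <;> linarith [h8.1, h8.2, h9.1, h9.2]) (round (∑ j, k j * ξ j) - round (∑ j, k' j * ξ j))
      have h8 : t k - t k' = (∑ j, ((k - k') j : ℝ) * ξ j) -
          ((round (∑ j, k j * ξ j) - round (∑ j, k' j * ξ j) : ℤ) : ℝ) := by
        rw [ht]
        simp only [Pi.sub_apply]
        push_cast
        simp only [sub_mul, sum_sub_distrib]
        ring
      rw [h8]
      push_cast at h7 ⊢
      exact h7
    have hhat : ∀ k ∈ (SM.box (rad K J)).erase 0,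
        ‖hat (unif M) (fun j (m : ℕ) => (m : ℝ) * ξ j + y j) k‖ ^ 2 ≤ 1 / (4 * (M : ℝ) ^ 2) * (1 / (t k) ^ 2) := by
      intro k hk
      have hne : t k ≠ 0 := by
        intro h0
        have := ht1 k hk
        rw [h0, abs_zero] at this
        linarith
      have h3 : hat (unif M) (fun j (m : ℕ) => (m : ℝ) * ξ j + y j) k =
          e (∑ j, k j * y j) * (((M : ℝ)⁻¹) • ∑ m ∈ range M, e (m * (∑ j, k j * ξ j))) := by
        unfold hat
        rw [unif_int, mul_smul_comm, mul_sum]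
        congr 1
        refine sum_congr rfl fun m _ => ?_
        rw [← e_add]
        congr 1
        rw [mul_sum, ← sum_add_distrib]
        refine sum_congr rfl fun j _ => ?_
        ring
      rw [h3, norm_mul, norm_e, one_mul]
      exact geo hM rfl hne
    refine (sum_le_sum hhat).trans ?_
    rw [← mul_sum]
    have h4 := sep_sum ((SM.box (rad K J)).erase 0) t hΔ ht1 ht2
    calc 1 / (4 * (M : ℝ) ^ 2) * ∑ k ∈ (SM.box (rad K J)).erase 0, 1 / (t k) ^ 2
        ≤ 1 / (4 * (M : ℝ) ^ 2) * (16 / Δ ^ 2) := by gcongr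
      _ = (2 / (M * Δ)) ^ 2 := by field_simp; norm_num
  have h5 : (0 : ℝ) ≤ 4 * n + 1 := by positivity
  linarith [mul_le_mul_of_nonneg_left hD h5]

end Pool.Agent.W5h30.MU
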