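import Mathlib
import Pool.Agent.W5h30.MU.Mult

/-!
# The joint law of the digits of the multiples of algebraic numbers, second part (helper30)
-/

set_option autoImplicit false
set_option linter.unusedVariables false

namespace Pool.Agent.W5h30.MU

open Finset Filter Pool.Agent.Y933.KD Pool.Agent.W5h30.SM

lemma ev_rpow' (C ρ : ℝ) (hρ : 0 < ρ) : ∀ᶠ H : ℕ in atTop, C ≤ (H : ℝ) ^ ρ := by
  have h1 := (tendsto_rpow_atTop hρ).comp tendsto_natCast_atTop_atTop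
  exact h1.eventually_ge_atTop C

/-- spacing of the frequencies -/
lemma spacing {n : ℕ} (α : Fin n → ℝ) (hα : ∀ i, IsAlgebraic ℚ (α i)) (B : ℕ) (hB : 2 ≤ B) (A τ : ℝ)
    (hτ : 0 < τ) (hτ1 : 16 * ((n : ℝ) + 1) * τ ≤ 1) : ∀ᶠ M : ℕ in atTop, ∀ b s K : Fin n → ℕ,
      (∀ i, 2 ≤ b i ∧ b i ≤ B) → (∀ i, (s i : ℝ) ≤ A * Real.log M) → (∀ i, 1 ≤ K i) →
      ∏ i, (K i : ℝ) ≤ (M : ℝ) ^ (1 - 16 * ((n : ℝ) + 1) * τ) →
      (∀ k : Fin n → ℤ, k ≠ 0 → (∀ i, |(k i : ℝ)| ≤ K i * (M : ℝ) ^ (16 * ((n : ℝ) + 1) * τ)) →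
        ∀ p : ℤ, ∑ i, k i * ((b i : ℝ) ^ (s i) * α i) ≠ p) →
      ∀ k : Fin n → ℤ, k ≠ 0 → (∀ i, |(k i : ℝ)| ≤ 16 * K i * ((M : ℝ) ^ τ) ^ 2) →
        ∀ p : ℤ, (M : ℝ) ^ τ / M ≤ |(∑ i, k i * ((b i : ℝ) ^ (s i) * α i)) - p| := by
  classical
  obtain ⟨b0, hb0⟩ : ∃ b0 : ℕ, b0 = B.factorial := ⟨_, rfl⟩
  have hb02 : 2 ≤ b0 := by
    rw [hb0]
    calc 2 = Nat.factorial 2 := rfl
      _ ≤ B.factorial := Nat.factorial_le hB
  have hb0R : (2 : ℝ) ≤ b0 := by exact_mod_cast hb02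
  have hb0pos : (0 : ℝ) < b0 := by linarith
  have hlb : 0 < Real.log b0 := Real.log_pos (by linarith)
  obtain ⟨A1, hA1⟩ : ∃ A1 : ℕ, A1 = ⌈|A| * Real.log b0⌉₊ := ⟨_, rfl⟩
  obtain ⟨S, hS⟩ : ∃ S : ℝ, S = ∑ i, |α i| := ⟨_, rfl⟩
  have hS0 : 0 ≤ S := by rw [hS]; exact sum_nonneg fun _ _ => abs_nonneg _
  -- the forms
  have hforms := forms b0 hb02 (A1 + 6) (4 * τ) (by positivity) n (Fin.snoc α (-1)) (fun j => by
    refine Fin.lastCases ?_ (fun i => ?_) j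
    · rw [Fin.snoc_last]
      exact isAlgebraic_one.neg
    · rw [Fin.snoc_castSucc]
      exact hα i)
  obtain ⟨N0, hN0⟩ := Filter.eventually_atTop.1 hforms
  have hτle : 16 * τ ≤ 1 := by
    have hn0 : (0 : ℝ) ≤ n := Nat.cast_nonneg n
    nlinarith
  -- large M
  obtain ⟨c0, hc0⟩ : ∃ c0 : ℝ, c0 = (b0 : ℝ) ^ (4 * τ) * 16 ^ n := ⟨_, rfl⟩
  have hc00 : 0 < c0 := by rw [hc0]; positivity
  filter_upwards [ev_rpow' 16 τ hτ, ev_rpow' c0 τ hτ, eventually_ge_atTop (b0 ^ N0 + 1), eventually_ge_atTop 2,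
    eventually_ge_atTop (⌈S + 2⌉₊)] with M h1 h2 h3 h4 h5
  intro b s K hb hs hK hprod hnd k hk hkle p
  have hM2 : (2 : ℝ) ≤ M := by exact_mod_cast h4
  have hM0 : (0 : ℝ) < M := by linarith
  have hM1 : (1 : ℝ) ≤ M := by linarith
  obtain ⟨T, hT⟩ : ∃ T : ℝ, T = (M : ℝ) ^ τ := ⟨_, rfl⟩
  rw [← hT] at h1 h2 hkle ⊢
  have hT0 : 0 < T := by linarith
  have hT1 : 1 ≤ T := by linarith
  have hTM : T ≤ M := by
    rw [hT]
    calc (M : ℝ) ^ τ ≤ (M : ℝ) ^ (1 : ℝ) := Real.rpow_le_rpow_of_exponent_le hM1 (by linarith)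
      _ = M := Real.rpow_one _
  have hTpow : (M : ℝ) ^ (16 * ((n : ℝ) + 1) * τ) = T ^ (16 * (n + 1)) := by
    rw [hT, ← Real.rpow_natCast, ← Real.rpow_mul hM0.le]
    congr 1
    push_cast
    ring
  have hprod' : ∏ i, (K i : ℝ) ≤ M / T ^ (16 * (n + 1)) := by
    refine hprod.trans (le_of_eq ?_)
    rw [Real.rpow_sub hM0, Real.rpow_one, hTpow]
  have hKM : ∀ i, (K i : ℝ) ≤ M := by
    intro i
    have h6 : (K i : ℝ) ≤ ∏ j, (K j : ℝ) := by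
      rw [← Finset.mul_prod_erase _ _ (mem_univ i)]
      have h7 : (1 : ℝ) ≤ ∏ j ∈ univ.erase i, (K j : ℝ) := by
        have := Finset.prod_le_prod (s := univ.erase i) (f := fun _ => (1 : ℝ)) (g := fun j => (K j : ℝ))
          (fun _ _ => zero_le_one) (fun j _ => by exact_mod_cast hK j)
        simpa using this
      have h8 : (0 : ℝ) ≤ K i := Nat.cast_nonneg _
      nlinarith
    refine h6.trans (hprod'.trans ?_)
    exact div_le_self hM0.le (one_le_pow₀ hT1)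
  -- the index
  obtain ⟨N, hN⟩ : ∃ N : ℕ, N = Nat.clog b0 M := ⟨_, rfl⟩
  have hMN : M ≤ b0 ^ N := by rw [hN]; exact Nat.le_pow_clog (by omega) _
  have hMNR : (M : ℝ) ≤ (b0 : ℝ) ^ N := by exact_mod_cast hMN
  have hNM : b0 ^ N ≤ b0 * M := by
    have h6 : b0 ^ (N - 1) < M := by
      rw [hN]
      exact Nat.pow_pred_clog_lt_self (by omega) (by omega)
    have hNpos : 0 < N := by
      rw [hN]
      exact Nat.clog_pos (by omega) (by omega)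
    calc b0 ^ N = b0 * b0 ^ (N - 1) := by
          rw [← pow_succ']
          congr 1
          omega
      _ ≤ b0 * M := Nat.mul_le_mul_left _ h6.le
  have hNMR : (b0 : ℝ) ^ N ≤ b0 * M := by exact_mod_cast hNM
  have hNge : N0 ≤ N := by
    by_contra hcon
    push Not at hcon
    have h6 : b0 ^ N ≤ b0 ^ N0 := Nat.pow_le_pow_right (by omega) hcon.le
    omega
  have hLB := hN0 N hNge
  -- bounds
  have hlogM : Real.log M ≤ N * Real.log b0 := by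
    rw [← Real.log_pow]
    exact Real.log_le_log hM0 hMNR
  have hlogM0 : 0 ≤ Real.log M := Real.log_nonneg hM1
  have hsN : ∀ i, s i ≤ A1 * N := by
    intro i
    have h6 : (s i : ℝ) ≤ A1 * N := by
      calc (s i : ℝ) ≤ A * Real.log M := hs i
        _ ≤ |A| * Real.log M := mul_le_mul_of_nonneg_right (le_abs_self A) hlogM0
        _ ≤ |A| * (N * Real.log b0) := mul_le_mul_of_nonneg_left hlogM (abs_nonneg _)
        _ = (|A| * Real.log b0) * N := by ring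
        _ ≤ A1 * N := by
            refine mul_le_mul_of_nonneg_right ?_ (Nat.cast_nonneg _)
            rw [hA1]
            exact Nat.le_ceil _
    exact_mod_cast h6
  have hdvd : ∀ i, b i ^ s i ∣ b0 ^ (A1 * N) := by
    intro i
    have h6 : b i ∣ b0 := by
      rw [hb0]
      exact Nat.dvd_factorial (by have := (hb i).1; omega) (hb i).2
    exact (pow_dvd_pow_of_dvd h6 _).trans (pow_dvd_pow _ (hsN i))
  have hT16 : 16 ≤ M := by
    have : (16 : ℝ) ≤ M := h1.trans hTM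
    exact_mod_cast this
  have hT2M : T ^ 2 ≤ M := by
    rw [hT, ← Real.rpow_natCast, ← Real.rpow_mul hM0.le]
    calc (M : ℝ) ^ (τ * ((2 : ℕ) : ℝ)) ≤ (M : ℝ) ^ (1 : ℝ) :=
          Real.rpow_le_rpow_of_exponent_le hM1 (by push_cast; linarith)
      _ = M := Real.rpow_one _
  have hkM : ∀ i, |(k i : ℝ)| ≤ (M : ℝ) ^ 3 := by
    intro i
    refine (hkle i).trans ?_
    have h6 : (16 : ℝ) ≤ M := by exact_mod_cast hT16
    have h7 := hKM i
    have h8 : (0 : ℝ) ≤ K i := Nat.cast_nonneg _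
    calc 16 * (K i : ℝ) * T ^ 2 ≤ M * M * M := by gcongr
      _ = (M : ℝ) ^ 3 := by ring
  have hkN : ∀ i, |(k i : ℝ)| ≤ (b0 : ℝ) ^ (3 * N) := by
    intro i
    refine (hkM i).trans ?_
    calc (M : ℝ) ^ 3 ≤ ((b0 : ℝ) ^ N) ^ 3 := by gcongr
      _ = _ := by rw [← pow_mul]; ring_nf
  by_contra hcon
  push Not at hcon
  have hTdivM : T / M ≤ 1 := by rw [div_le_one hM0]; exact hTM
  -- size of `p`
  have hp : |(p : ℝ)| ≤ (b0 : ℝ) ^ ((A1 + 6) * N) := by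
    have h6 : |(p : ℝ)| ≤ |∑ i, k i * ((b i : ℝ) ^ (s i) * α i)| + 1 := by
      have h7 : (p : ℝ) = (∑ i, k i * ((b i : ℝ) ^ (s i) * α i)) -
          ((∑ i, k i * ((b i : ℝ) ^ (s i) * α i)) - p) := by ring
      rw [h7]
      refine (abs_sub _ _).trans ?_
      linarith
    have h8 : |∑ i, k i * ((b i : ℝ) ^ (s i) * α i)| ≤ (b0 : ℝ) ^ (3 * N) * (b0 : ℝ) ^ (A1 * N) * S := by
      refine (Finset.abs_sum_le_sum_abs _ _).trans ?_
      rw [hS, mul_sum]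
      refine sum_le_sum fun i _ => ?_
      rw [abs_mul, abs_mul, ← mul_assoc]
      refine mul_le_mul_of_nonneg_right ?_ (abs_nonneg _)
      have h9 : |(b i : ℝ) ^ s i| ≤ (b0 : ℝ) ^ (A1 * N) := by
        rw [abs_of_nonneg (by positivity)]
        exact_mod_cast Nat.le_of_dvd (pow_pos (by omega) _) (hdvd i)
      exact mul_le_mul (hkN i) h9 (abs_nonneg _) (by positivity)
    have h9 : S + 2 ≤ (b0 : ℝ) ^ N := by
      have : S + 2 ≤ M := (Nat.le_ceil _).trans (by exact_mod_cast h5)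
      linarith
    have h10 : (1 : ℝ) ≤ (b0 : ℝ) ^ (3 * N) * (b0 : ℝ) ^ (A1 * N) := by
      have e1 : (1 : ℝ) ≤ (b0 : ℝ) ^ (3 * N) := one_le_pow₀ (by linarith)
      have e2 : (1 : ℝ) ≤ (b0 : ℝ) ^ (A1 * N) := one_le_pow₀ (by linarith)
      nlinarith
    calc |(p : ℝ)| ≤ (b0 : ℝ) ^ (3 * N) * (b0 : ℝ) ^ (A1 * N) * S + 1 := by linarith
      _ ≤ (b0 : ℝ) ^ (3 * N) * (b0 : ℝ) ^ (A1 * N) * (S + 2) := by nlinarith
      _ ≤ (b0 : ℝ) ^ (3 * N) * (b0 : ℝ) ^ (A1 * N) * (b0 : ℝ) ^ N := by gcongr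
      _ = (b0 : ℝ) ^ ((A1 + 4) * N) := by rw [← pow_add, ← pow_add]; congr 1; ring
      _ ≤ _ := pow_le_pow_right₀ (by linarith) (Nat.mul_le_mul_right _ (by omega))
  -- apply the forms
  have hsumeq : ∑ j, (Fin.snoc α (-1) : Fin (n + 1) → ℝ) j *
      ((((Fin.snoc k p : Fin (n + 1) → ℤ) j : ℤ) : ℝ) * ((Fin.snoc (fun i => b i ^ s i) 1 : Fin (n + 1) → ℕ) j : ℕ)) =
      (∑ i, k i * ((b i : ℝ) ^ (s i) * α i)) - p := by
    rw [Fin.sum_univ_castSucc]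
    simp only [Fin.snoc_castSucc, Fin.snoc_last]
    push_cast
    rw [sub_eq_add_neg]
    congr 1
    · refine sum_congr rfl fun i _ => ?_
      ring
    · ring
  have hne : (∑ i, k i * ((b i : ℝ) ^ (s i) * α i)) - p ≠ 0 := by
    refine sub_ne_zero.2 (hnd k hk (fun i => (hkle i).trans ?_) p)
    rw [hTpow]
    have h6 : (0 : ℝ) ≤ K i := Nat.cast_nonneg _
    have h7 : 16 * T ^ 2 ≤ T ^ (16 * (n + 1)) := by
      have h8 : T ^ 3 ≤ T ^ (16 * (n + 1)) := pow_le_pow_right₀ hT1 (by omega)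
      have h9 : 16 * T ^ 2 ≤ T ^ 3 := by
        have : 0 ≤ T ^ 2 := by positivity
        nlinarith
      linarith
    calc 16 * (K i : ℝ) * T ^ 2 = K i * (16 * T ^ 2) := by ring
      _ ≤ _ := mul_le_mul_of_nonneg_left h7 h6
  have hfin := hLB (Fin.snoc k p) (Fin.snoc (fun i => b i ^ s i) 1) (fun j => by
      refine Fin.lastCases ?_ (fun i => ?_) j
      · rw [Fin.snoc_last]; exact one_dvd _
      · rw [Fin.snoc_castSucc]
        exact (hdvd i).trans (pow_dvd_pow _ (Nat.mul_le_mul_right _ (by omega)))) (fun j => by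
      refine Fin.lastCases ?_ (fun i => ?_) j
      · rw [Fin.snoc_last]; exact hp
      · rw [Fin.snoc_castSucc]
        refine (hkN i).trans (pow_le_pow_right₀ (by linarith) (Nat.mul_le_mul_right _ (by omega))))
    (by rw [hsumeq]; exact hne)
  rw [hsumeq] at hfin
  simp only [Fin.snoc_castSucc] at hfin
  -- compare
  have hszprod : ∏ j : Fin n, sz (k j) ≤ 16 ^ n * T ^ (2 * n) * (M / T ^ (16 * (n + 1))) := by
    have h6 : ∏ j : Fin n, sz (k j) ≤ ∏ j : Fin n, (16 * T ^ 2 * K j) := by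
      refine prod_le_prod (fun _ _ => (sz_pos _).le) fun j _ => ?_
      have h7 : (1 : ℝ) ≤ K j := by exact_mod_cast hK j
      refine max_le ?_ ?_
      · have : (1 : ℝ) ≤ T ^ 2 := one_le_pow₀ hT1
        nlinarith
      · refine (hkle j).trans (le_of_eq ?_)
        ring
    refine h6.trans ?_
    rw [prod_mul_distrib, prod_const, card_univ, Fintype.card_fin]
    have h7 : (16 * T ^ 2) ^ n = 16 ^ n * T ^ (2 * n) := by rw [mul_pow, ← pow_mul]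
    rw [h7]
    exact mul_le_mul_of_nonneg_left hprod' (by positivity)
  have hszpos : 0 < ∏ j : Fin n, sz (k j) := prod_pos fun _ _ => sz_pos _
  have hbN : 1 / ((b0 : ℝ) ^ (4 * τ) * T ^ 4) ≤ (b0 : ℝ) ^ (-(4 * τ * N)) := by
    have h6 : (b0 : ℝ) ^ (-(4 * τ * N)) = 1 / ((b0 : ℝ) ^ N) ^ (4 * τ) := by
      rw [Real.rpow_neg hb0pos.le, one_div, ← Real.rpow_natCast, ← Real.rpow_mul hb0pos.le]
      congr 2
      ring
    rw [h6]
    have h7 : ((b0 : ℝ) ^ N) ^ (4 * τ) ≤ (b0 : ℝ) ^ (4 * τ) * T ^ 4 := by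
      calc ((b0 : ℝ) ^ N) ^ (4 * τ) ≤ ((b0 : ℝ) * M) ^ (4 * τ) :=
            Real.rpow_le_rpow (by positivity) hNMR (by positivity)
        _ = (b0 : ℝ) ^ (4 * τ) * (M : ℝ) ^ (4 * τ) := Real.mul_rpow hb0pos.le hM0.le
        _ = (b0 : ℝ) ^ (4 * τ) * T ^ 4 := by
            rw [hT, ← Real.rpow_natCast, ← Real.rpow_mul hM0.le]
            congr 2
            push_cast
            ring
    exact one_div_le_one_div_of_le (by positivity) h7
  have hlow : T / M ≤ (b0 : ℝ) ^ (-(4 * τ * N)) / ∏ j : Fin n, sz (k j) := by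
    have h6 : 1 / ((b0 : ℝ) ^ (4 * τ) * T ^ 4) / (16 ^ n * T ^ (2 * n) * (M / T ^ (16 * (n + 1)))) ≤
        (b0 : ℝ) ^ (-(4 * τ * N)) / ∏ j : Fin n, sz (k j) :=
      div_le_div₀ (by positivity) hbN hszpos hszprod
    refine le_trans ?_ h6
    have h7 : 1 / ((b0 : ℝ) ^ (4 * τ) * T ^ 4) / (16 ^ n * T ^ (2 * n) * (M / T ^ (16 * (n + 1)))) =
        T ^ (16 * (n + 1)) / (c0 * T ^ (2 * n + 4) * M) := by
      rw [hc0]
      field_simp
      ring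
    rw [h7, div_le_div_iff₀ hM0 (by positivity)]
    have h8 : c0 * T ^ (2 * n + 4) * T ≤ T ^ (16 * (n + 1)) := by
      calc c0 * T ^ (2 * n + 4) * T ≤ T * T ^ (2 * n + 4) * T := by gcongr
        _ = T ^ (2 * n + 6) := by ring
        _ ≤ _ := pow_le_pow_right₀ hT1 (by omega)
    calc T * (c0 * T ^ (2 * n + 4) * M) = (c0 * T ^ (2 * n + 4) * T) * M := by ring
      _ ≤ T ^ (16 * (n + 1)) * M := by gcongr
  linarith

/-- **the joint law of the digits of the multiples of algebraic numbers** -/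
theorem alg_mult {n : ℕ} (α : Fin n → ℝ) (hα : ∀ i, IsAlgebraic ℚ (α i)) (B : ℕ) (hB : 2 ≤ B) (A ε : ℝ)
    (hε : 0 < ε) (hε1 : ε ≤ 1) : ∃ c : ℝ, 0 < c ∧ ∃ M0 : ℕ, ∀ M : ℕ, M0 ≤ M → ∀ b s K : Fin n → ℕ,
      (∀ i, 2 ≤ b i ∧ b i ≤ B) → (∀ i, (s i : ℝ) ≤ A * Real.log M) → (∀ i, 1 ≤ K i) →
      ∏ i, (K i : ℝ) ≤ (M : ℝ) ^ (1 - ε) →
      (∀ k : Fin n → ℤ, k ≠ 0 → (∀ i, |(k i : ℝ)| ≤ K i * (M : ℝ) ^ ε) →
        ∀ p : ℤ, ∑ i, k i * ((b i : ℝ) ^ (s i) * α i) ≠ p) →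
      ∀ y : Fin n → ℝ, ∀ E : Finset (Fin n → ℕ), (∀ a ∈ E, ∀ j, a j < K j) →
      |((range M).filter (fun m : ℕ => (fun j => cell (K j) (m * ((b j : ℝ) ^ (s j) * α j) + y j)) ∈ E)).card /
        (M : ℝ) - (E.card : ℝ) / ∏ j, (K j : ℝ)| ≤ (M : ℝ) ^ (-c) := by
  obtain ⟨τ, hτ⟩ : ∃ τ : ℝ, τ = ε / (16 * ((n : ℝ) + 1)) := ⟨_, rfl⟩
  have hτ0 : 0 < τ := by rw [hτ]; positivity
  have hτε : 16 * ((n : ℝ) + 1) * τ = ε := by rw [hτ]; field_simp
  have hsp := spacing α hα B hB A τ hτ0 (by rw [hτε]; exact hε1)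
  rw [hτε] at hsp
  have hev := hsp.and ((ev_rpow' (13 * n + 2) (τ / 2) (by positivity)).and (eventually_ge_atTop 2))
  obtain ⟨M0, hM0⟩ := Filter.eventually_atTop.1 hev
  refine ⟨τ / 2, by positivity, M0, fun M hM b s K hb hs hK hprod hnd y E hE => ?_⟩
  obtain ⟨h1, h2, h3⟩ := hM0 M hM
  have hM2 : (2 : ℝ) ≤ M := by exact_mod_cast h3
  have hMpos : (0 : ℝ) < M := by linarith
  have hM1 : (1 : ℝ) ≤ M := by linarith
  obtain ⟨T, hT⟩ : ∃ T : ℝ, T = (M : ℝ) ^ τ := ⟨_, rfl⟩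
  have hT1 : 1 ≤ T := by rw [hT]; exact Real.one_le_rpow hM1 hτ0.le
  have hT0 : 0 < T := by linarith
  obtain ⟨J, hJ⟩ : ∃ J : ℕ, J = ⌈T⌉₊ := ⟨_, rfl⟩
  have hJpos : 0 < J := by rw [hJ]; exact Nat.ceil_pos.2 hT0
  have hJge : T ≤ J := by rw [hJ]; exact Nat.le_ceil T
  have hJle : (J : ℝ) ≤ 2 * T := by
    rw [hJ]
    have := (Nat.ceil_lt_add_one (by linarith : (0 : ℝ) ≤ T)).le
    linarith
  have hJR : (0 : ℝ) < J := by linarith
  have h4 := h1 b s K hb hs hK hprod hnd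
  rw [← hT] at h4
  have hlaw := mult_law (n := n) (M := M) (by omega) K (fun j => hK j) hJpos
    (fun j => (b j : ℝ) ^ (s j) * α j) y (Δ := T / M) (by positivity) (fun k hk hkle p => by
      refine h4 k hk (fun j => ?_) p
      have h5 : |(k j : ℝ)| < 4 * (K j * (J : ℝ) ^ 2) := by exact_mod_cast hkle j
      have h6 : (0 : ℝ) ≤ K j := Nat.cast_nonneg _
      have h7 : (J : ℝ) ^ 2 ≤ 4 * T ^ 2 := by nlinarith
      nlinarith [mul_le_mul_of_nonneg_left h7 h6]) E hE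
  refine hlaw.trans ?_
  have h5 : (M : ℝ) * (T / M) = T := by field_simp
  rw [h5]
  have h6 : (n : ℝ) * (5 / J) ≤ n * (5 / T) := by gcongr
  have h7 : (n : ℝ) * (5 / T) + (4 * n + 1) * (2 / T) = (13 * n + 2) / T := by ring
  have h8 : (13 * (n : ℝ) + 2) / T ≤ (M : ℝ) ^ (τ / 2) / T := by gcongr
  have h9 : (M : ℝ) ^ (τ / 2) / T = (M : ℝ) ^ (-(τ / 2)) := by
    rw [hT, ← Real.rpow_sub hMpos]
    congr 1
    ring
  linarith

end Pool.Agent.W5h30.MU
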