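import Mathlib

/-!
# Words satisfying a small relation modulo one (helper30)
-/

set_option autoImplicit false
set_option linter.unusedVariables false

namespace Pool.Agent.W5h30.MU

open Finset

/-- integers in an interval -/
lemma cnt_near (S : Finset ℤ) (c ρ : ℝ) (hρ : 0 ≤ ρ) (hS : ∀ w ∈ S, |(w : ℝ) - c| ≤ ρ) :
    (S.card : ℝ) ≤ 2 * ρ + 1 := by
  have hsub : S ⊆ Finset.Icc ⌈c - ρ⌉ ⌊c + ρ⌋ := by
    intro w hw
    have h := abs_le.1 (hS w hw)
    rw [Finset.mem_Icc, Int.ceil_le, Int.le_floor]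
    constructor <;> linarith
  have h1 := card_le_card hsub
  rw [Int.card_Icc] at h1
  have h2 : (S.card : ℝ) ≤ (((⌊c + ρ⌋ + 1 - ⌈c - ρ⌉).toNat : ℕ) : ℝ) := by exact_mod_cast h1
  refine h2.trans ?_
  rcases le_or_gt 0 (⌊c + ρ⌋ + 1 - ⌈c - ρ⌉) with h | h
  · have h3 : (((⌊c + ρ⌋ + 1 - ⌈c - ρ⌉).toNat : ℕ) : ℝ) = ((⌊c + ρ⌋ + 1 - ⌈c - ρ⌉ : ℤ) : ℝ) := by
      have : (((⌊c + ρ⌋ + 1 - ⌈c - ρ⌉).toNat : ℕ) : ℤ) = ⌊c + ρ⌋ + 1 - ⌈c - ρ⌉ := Int.toNat_of_nonneg h
      exact_mod_cast congrArg (fun z : ℤ => (z : ℝ)) this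
    rw [h3]
    push_cast
    have h4 : (⌊c + ρ⌋ : ℝ) ≤ c + ρ := Int.floor_le _
    have h5 : c - ρ ≤ (⌈c - ρ⌉ : ℝ) := Int.le_ceil _
    linarith
  · rw [Int.toNat_of_nonpos h.le]
    push_cast
    linarith

open scoped Classical in
/-- words in one variable -/
lemma cnt_rel (K : ℕ) (hK : 0 < K) (k : ℤ) (hk : k ≠ 0) (θ δ : ℝ) (hδ : 0 ≤ δ) (hδ1 : δ ≤ 1 / 2) :
    (((range K).filter (fun w : ℕ => ∃ p : ℤ, |(k : ℝ) * w / K - θ - p| ≤ δ)).card : ℝ) ≤
      (|(k : ℝ)| + 2) * (2 * (δ * K / |(k : ℝ)|) + 1) := by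
  classical
  have hKR : (0 : ℝ) < K := by exact_mod_cast hK
  have hkR : 0 < |(k : ℝ)| := abs_pos.2 (by exact_mod_cast hk)
  have hk0 : (k : ℝ) ≠ 0 := by exact_mod_cast hk
  -- the integers `p` which occur
  set S := (range K).filter (fun w : ℕ => ∃ p : ℤ, |(k : ℝ) * w / K - θ - p| ≤ δ) with hS
  have hch : ∀ w : ℕ, ∃ p : ℤ, w ∈ S → |(k : ℝ) * w / K - θ - p| ≤ δ := by
    intro w
    by_cases hw : w ∈ S
    · obtain ⟨p, hp⟩ := (mem_filter.1 hw).2
      exact ⟨p, fun _ => hp⟩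
    · exact ⟨0, fun h => absurd h hw⟩
  choose p hp using hch
  have hcard := card_eq_sum_card_image p S
  rw [hcard]
  push_cast
  have h1 : ∀ z ∈ S.image p, (((S.filter (fun w => p w = z)).card : ℕ) : ℝ) ≤ 2 * (δ * K / |(k : ℝ)|) + 1 := by
    intro z _
    have h2 : ((S.filter (fun w => p w = z)).image (fun w : ℕ => (w : ℤ))).card =
        (S.filter (fun w => p w = z)).card := card_image_of_injective _ Nat.cast_injective
    rw [← h2]
    refine cnt_near _ ((θ + z) * K / k) (δ * K / |(k : ℝ)|) (by positivity) fun w hw => ?_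
    rw [mem_image] at hw
    obtain ⟨w', hw', rfl⟩ := hw
    rw [mem_filter] at hw'
    have h3 := hp w' hw'.1
    rw [hw'.2] at h3
    have h4 : (((w' : ℕ) : ℤ) : ℝ) - (θ + z) * K / k = ((k : ℝ) * w' / K - θ - z) * (K / k) := by
      push_cast
      field_simp
      ring
    rw [h4, abs_mul, abs_div, abs_of_pos hKR]
    calc |(k : ℝ) * w' / K - θ - z| * (K / |(k : ℝ)|) ≤ δ * (K / |(k : ℝ)|) :=
          mul_le_mul_of_nonneg_right h3 (by positivity)
      _ = δ * K / |(k : ℝ)| := by ring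
  refine (sum_le_sum h1).trans ?_
  rw [sum_const, nsmul_eq_mul]
  refine mul_le_mul_of_nonneg_right ?_ (by positivity)
  have h2 := cnt_near (S.image p) ((k : ℝ) / 2 - θ) (|(k : ℝ)| / 2 + 1 / 2) (by positivity) (fun z hz => by
    rw [mem_image] at hz
    obtain ⟨w, hw, rfl⟩ := hz
    have h3 := hp w hw
    have hwK : (w : ℝ) ≤ K := by
      have := (mem_range.1 (mem_filter.1 hw).1).le
      exact_mod_cast this
    have h4 : (p w : ℝ) - ((k : ℝ) / 2 - θ) = -((k : ℝ) * w / K - θ - p w) + k * (w / K - 1 / 2) := by ring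
    rw [h4]
    refine (abs_add_le _ _).trans ?_
    rw [abs_neg, abs_mul]
    have h5 : |(w : ℝ) / K - 1 / 2| ≤ 1 / 2 := by
      have h6 : (w : ℝ) / K ≤ 1 := by rwa [div_le_one hKR]
      have h7 : 0 ≤ (w : ℝ) / K := by positivity
      rw [abs_le]
      constructor <;> linarith
    nlinarith)
  linarith

open scoped Classical in
/-- words in several variables satisfying a relation modulo one -/
lemma card_rel {n : ℕ} (K : Fin n → ℕ) (hK : ∀ i, 0 < K i) (k : Fin n → ℤ) (hk : k ≠ 0) (θ δ : ℝ)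
    (hδ : 0 ≤ δ) (hδ1 : δ ≤ 1 / 2) {X : ℝ} (hX : ∀ i, |(k i : ℝ)| ≤ K i * X) :
    (((Fintype.piFinset fun i => range (K i)).filter
      (fun w : Fin n → ℕ => ∃ p : ℤ, |(∑ i, (k i : ℝ) * w i / K i) - θ - p| ≤ δ)).card : ℝ) ≤
      (6 * δ + 3 * X) * ∏ i, (K i : ℝ) := by
  classical
  obtain ⟨i0, hi0⟩ := Function.ne_iff.1 hk
  simp only [Pi.zero_apply] at hi0
  have hk0 : 0 < |(k i0 : ℝ)| := abs_pos.2 (by exact_mod_cast hi0)
  have hk1 : (1 : ℝ) ≤ |(k i0 : ℝ)| := by exact_mod_cast Int.one_le_abs hi0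
  have hK0 : (0 : ℝ) < K i0 := by exact_mod_cast hK i0
  set S := (Fintype.piFinset fun i => range (K i)).filter
      (fun w : Fin n → ℕ => ∃ p : ℤ, |(∑ i, (k i : ℝ) * w i / K i) - θ - p| ≤ δ) with hS
  set t : Finset (Fin n → ℕ) := Fintype.piFinset fun i => if i = i0 then {0} else range (K i) with ht
  obtain ⟨Nf, hNf⟩ : ∃ Nf : ℕ, Nf = ⌊(6 * δ + 3 * X) * K i0⌋₊ := ⟨_, rfl⟩
  have hX0 : 0 ≤ X := by
    have h1 := hX i0
    by_contra hcon
    push Not at hcon
    have : (K i0 : ℝ) * X < 0 := mul_neg_of_pos_of_neg hK0 hcon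
    linarith
  have hmaps : ∀ w ∈ S, Function.update w i0 0 ∈ t := by
    intro w hw
    rw [ht, Fintype.mem_piFinset]
    intro i
    by_cases hi : i = i0
    · subst hi
      simp
    · rw [if_neg hi, Function.update_of_ne hi]
      exact Fintype.mem_piFinset.1 (mem_filter.1 hw).1 i
  have hfib : ∀ b ∈ t, (S.filter (fun w => Function.update w i0 0 = b)).card ≤ Nf := by
    intro b hb
    rw [hNf]
    apply Nat.le_floor
    -- restrict to the coordinate `i0`
    obtain ⟨θ', hθ'⟩ : ∃ θ' : ℝ, θ' = θ - ∑ i ∈ univ.erase i0, (k i : ℝ) * b i / K i := ⟨_, rfl⟩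
    have hinj : Set.InjOn (fun w : Fin n → ℕ => w i0) (S.filter (fun w => Function.update w i0 0 = b) : Finset _) := by
      intro w hw w' hw' hww
      rw [mem_coe, mem_filter] at hw hw'
      funext i
      by_cases hi : i = i0
      · rw [hi]; exact hww
      · have h1 := congrFun hw.2 i
        have h2 := congrFun hw'.2 i
        rw [Function.update_of_ne hi] at h1 h2
        rw [h1, h2]
    rw [← card_image_of_injOn hinj]
    have hsub : (S.filter (fun w => Function.update w i0 0 = b)).image (fun w : Fin n → ℕ => w i0) ⊆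
        (range (K i0)).filter (fun w : ℕ => ∃ p : ℤ, |(k i0 : ℝ) * w / K i0 - θ' - p| ≤ δ) := by
      intro x hx
      rw [mem_image] at hx
      obtain ⟨w, hw, rfl⟩ := hx
      rw [mem_filter] at hw
      obtain ⟨hw1, hw2⟩ := hw
      rw [hS, mem_filter, Fintype.mem_piFinset] at hw1
      obtain ⟨hw3, p, hp⟩ := hw1
      rw [mem_filter]
      refine ⟨hw3 i0, p, ?_⟩
      have h1 : (∑ i, (k i : ℝ) * w i / K i) = (k i0 : ℝ) * w i0 / K i0 +
          ∑ i ∈ univ.erase i0, (k i : ℝ) * b i / K i := by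
        rw [← add_sum_erase _ _ (mem_univ i0)]
        congr 1
        refine sum_congr rfl fun i hi => ?_
        have h2 := congrFun hw2 i
        rw [Function.update_of_ne (ne_of_mem_erase hi)] at h2
        rw [h2]
      rw [h1] at hp
      rw [hθ']
      have h2 : (k i0 : ℝ) * w i0 / K i0 - (θ - ∑ i ∈ univ.erase i0, (k i : ℝ) * b i / K i) - p =
          (k i0 : ℝ) * w i0 / K i0 + ∑ i ∈ univ.erase i0, (k i : ℝ) * b i / K i - θ - p := by ring
      rw [h2]
      exact hp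
    have h1 := cnt_rel (K i0) (hK i0) (k i0) hi0 θ' δ hδ hδ1
    have h2 : ((((S.filter (fun w => Function.update w i0 0 = b)).image (fun w : Fin n → ℕ => w i0)).card : ℕ) : ℝ) ≤
        (|(k i0 : ℝ)| + 2) * (2 * (δ * K i0 / |(k i0 : ℝ)|) + 1) :=
      le_trans (by exact_mod_cast card_le_card hsub) h1
    refine h2.trans ?_
    have h3 : (|(k i0 : ℝ)| + 2) * (2 * (δ * K i0 / |(k i0 : ℝ)|) + 1) ≤
        (3 * |(k i0 : ℝ)|) * (2 * (δ * K i0 / |(k i0 : ℝ)|) + 1) := by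
      refine mul_le_mul_of_nonneg_right (by linarith) (by positivity)
    have h4 : (3 * |(k i0 : ℝ)|) * (2 * (δ * K i0 / |(k i0 : ℝ)|) + 1) = 6 * (δ * K i0) + 3 * |(k i0 : ℝ)| := by
      field_simp
      ring
    have h5 := hX i0
    linarith
  have h1 := card_le_mul_card_image_of_maps_to hmaps Nf hfib
  have ht1 : (t.card : ℝ) = ∏ i ∈ univ.erase i0, (K i : ℝ) := by
    rw [ht, Fintype.card_piFinset, ← Finset.mul_prod_erase _ _ (mem_univ i0)]
    simp only [↓reduceIte, card_singleton, one_mul]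
    push_cast
    refine prod_congr rfl fun i hi => ?_
    rw [if_neg (ne_of_mem_erase hi), card_range]
  have h2 : (S.card : ℝ) ≤ Nf * t.card := by exact_mod_cast h1
  have h3 : (Nf : ℝ) ≤ (6 * δ + 3 * X) * K i0 := by
    rw [hNf]
    exact Nat.floor_le (by positivity)
  calc (S.card : ℝ) ≤ Nf * t.card := h2
    _ ≤ ((6 * δ + 3 * X) * K i0) * t.card := by gcongr
    _ = (6 * δ + 3 * X) * ∏ i, (K i : ℝ) := by
        rw [ht1, ← Finset.mul_prod_erase _ _ (mem_univ i0)]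
        ring

end Pool.Agent.W5h30.MU
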